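import Mathlib

/-!
The polytope/body Mahler inequality on a product of two coordinate spaces, and the volume of the
cross polytope.
-/

set_option autoImplicit false

open MeasureTheory Set Filter Topology
open scoped ENNReal BigOperators

namespace Pool.Agent.W96.FM

/-- Mahler's inequality for symmetric convex bodies in coordinates -/
def MahlerAll : Prop :=
  ∀ (N : ℕ) (K : Set (Fin N → ℝ)), IsCompact K → Convex ℝ K → (interior K).Nonempty →
    (∀ x ∈ K, -x ∈ K) →
    ENNReal.ofReal ((4 : ℝ) ^ N / N.factorial) ≤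
      volume K * volume {y : Fin N → ℝ | ∀ x ∈ K, ∑ i, x i * y i ≤ 1}

/-- splitting of the coordinates -/
def spl (n m : ℕ) (z : Fin (n + m) → ℝ) : (Fin n → ℝ) × (Fin m → ℝ) :=
  (fun i => z (Fin.castAdd m i), fun j => z (Fin.natAdd n j))

/-- joining of the coordinates -/
def jn (n m : ℕ) (w : (Fin n → ℝ) × (Fin m → ℝ)) : Fin (n + m) → ℝ := Fin.append w.1 w.2

lemma spl_jn (n m : ℕ) (w : (Fin n → ℝ) × (Fin m → ℝ)) : spl n m (jn n m w) = w := by
  ext i
  · simp [spl, jn]
  · simp [spl, jn]

lemma jn_spl (n m : ℕ) (z : Fin (n + m) → ℝ) : jn n m (spl n m z) = z := by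
  funext i
  refine Fin.addCases (fun i => ?_) (fun j => ?_) i
  · simp [spl, jn]
  · simp [spl, jn]

lemma continuous_spl (n m : ℕ) : Continuous (spl n m) := by
  unfold spl
  fun_prop

lemma continuous_jn (n m : ℕ) : Continuous (jn n m) := by
  refine continuous_pi fun i => ?_
  refine Fin.addCases (fun i => ?_) (fun j => ?_) i
  · simp only [jn, Fin.append_left]; fun_prop
  · simp only [jn, Fin.append_right]; fun_prop

lemma mp_spl (n m : ℕ) : MeasurePreserving (spl n m) volume volume := by
  have h1 := volume_measurePreserving_piCongrLeft (fun _ : Fin (n + m) => ℝ)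
    (finSumFinEquiv (m := n) (n := m))
  have h2 := h1.symm
  have h3 := volume_measurePreserving_sumPiEquivProdPi (fun _ : Fin n ⊕ Fin m => ℝ)
  exact h3.comp h2

lemma sum_spl (n m : ℕ) (z w : Fin (n + m) → ℝ) :
    ∑ i, z i * w i = ∑ i, (spl n m z).1 i * (spl n m w).1 i +
      ∑ j, (spl n m z).2 j * (spl n m w).2 j := by
  rw [Fin.sum_univ_add]
  rfl

instance instHaar (n m : ℕ) :
    (volume : Measure ((Fin n → ℝ) × (Fin m → ℝ))).IsAddHaarMeasure :=
  Measure.prod.instIsAddHaarMeasure _ _

/-- polar set on the product -/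
def pol2 {n m : ℕ} (K : Set ((Fin n → ℝ) × (Fin m → ℝ))) : Set ((Fin n → ℝ) × (Fin m → ℝ)) :=
  {w | ∀ z ∈ K, ∑ i, z.1 i * w.1 i + ∑ j, z.2 j * w.2 j ≤ 1}

lemma isClosed_pol2 {n m : ℕ} (K : Set ((Fin n → ℝ) × (Fin m → ℝ))) : IsClosed (pol2 K) := by
  have : pol2 K = ⋂ z ∈ K, {w : (Fin n → ℝ) × (Fin m → ℝ) |
      ∑ i, z.1 i * w.1 i + ∑ j, z.2 j * w.2 j ≤ 1} := by
    ext w; simp [pol2]
  rw [this]
  refine isClosed_biInter fun z _ => isClosed_le ?_ continuous_const
  fun_prop

theorem prodM (hM : MahlerAll) {n m : ℕ} {K : Set ((Fin n → ℝ) × (Fin m → ℝ))}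
    (hc : Convex ℝ K) (hb : Bornology.IsBounded K) (hi : (interior K).Nonempty)
    (hs : ∀ z ∈ K, -z ∈ K) :
    ENNReal.ofReal ((4 : ℝ) ^ (n + m) / (n + m).factorial) ≤ volume K * volume (pol2 K) := by
  set K' : Set (Fin (n + m) → ℝ) := spl n m ⁻¹' closure K with hK'
  have himg : K' = jn n m '' closure K := by
    ext z
    constructor
    · intro hz; exact ⟨spl n m z, hz, jn_spl n m z⟩
    · rintro ⟨w, hw, rfl⟩
      change spl n m (jn n m w) ∈ closure K
      rwa [spl_jn]
  have hcomp : IsCompact K' := by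
    rw [himg]
    exact hb.isCompact_closure.image (continuous_jn n m)
  have hlin : ∀ (a b : ℝ) (z w : Fin (n + m) → ℝ),
      spl n m (a • z + b • w) = a • spl n m z + b • spl n m w := by
    intro a b z w; rfl
  have hconv : Convex ℝ K' := by
    intro z hz w hw a b ha hb' hab
    change spl n m (a • z + b • w) ∈ closure K
    rw [hlin]
    exact hc.closure hz hw ha hb' hab
  have hint : (interior K').Nonempty := by
    obtain ⟨w, hw⟩ := hi
    refine ⟨jn n m w, ?_⟩
    have hopen : IsOpen (spl n m ⁻¹' interior K) := isOpen_interior.preimage (continuous_spl n m)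
    have hsub : spl n m ⁻¹' interior K ⊆ K' :=
      preimage_mono (interior_subset.trans subset_closure)
    refine interior_maximal hsub hopen ?_
    change spl n m (jn n m w) ∈ interior K
    rwa [spl_jn]
  have hsym : ∀ x ∈ K', -x ∈ K' := by
    intro x hx
    change spl n m (-x) ∈ closure K
    have h1 : spl n m (-x) = -(spl n m x) := rfl
    rw [h1]
    have h2 : closure K ⊆ (fun z : (Fin n → ℝ) × (Fin m → ℝ) => -z) ⁻¹' closure K := by
      refine closure_minimal (fun z hz => subset_closure (hs z hz)) ?_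
      exact isClosed_closure.preimage continuous_neg
    exact h2 hx
  have h := hM (n + m) K' hcomp hconv hint hsym
  have hv1 : volume K' = volume K := by
    rw [hK', (mp_spl n m).measure_preimage
      (isClosed_closure.measurableSet.nullMeasurableSet)]
    have hf := hc.addHaar_frontier volume
    exact measure_closure_of_null_frontier hf
  have hv2 : volume {y : Fin (n + m) → ℝ | ∀ x ∈ K', ∑ i, x i * y i ≤ 1} ≤ volume (pol2 K) := by
    rw [← (mp_spl n m).measure_preimage (isClosed_pol2 K).measurableSet.nullMeasurableSet]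
    refine measure_mono fun y hy => ?_
    intro z hz
    have h1 := hy (jn n m z) (by
      change spl n m (jn n m z) ∈ closure K
      rw [spl_jn]; exact subset_closure hz)
    rw [sum_spl, spl_jn] at h1
    exact h1
  calc _ ≤ _ := h
    _ ≤ _ := by rw [hv1]; exact mul_le_mul_right hv2 _

/-- volume of the cross polytope -/
lemma vol_l1 (m : ℕ) (hm : 1 ≤ m) (R : ℝ) :
    volume {t : Fin m → ℝ | ∑ j, |t j| ≤ R} =
      ENNReal.ofReal R ^ m * ENNReal.ofReal (2 ^ m / m.factorial) := by
  have : Nonempty (Fin m) := ⟨⟨0, hm⟩⟩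
  have h := MeasureTheory.volume_sum_rpow_le (Fin m) (p := 1) le_rfl R
  have e1 : {x : Fin m → ℝ | (∑ i, |x i| ^ (1 : ℝ)) ^ (1 / (1 : ℝ)) ≤ R} =
      {t : Fin m → ℝ | ∑ j, |t j| ≤ R} := by
    ext t; simp
  rw [e1] at h
  rw [h, Fintype.card_fin]
  congr 2
  rw [div_one, div_one]
  have e2 : Real.Gamma (1 + 1) = 1 := by
    have := Real.Gamma_nat_eq_factorial 1
    simpa using this
  rw [e2, Real.Gamma_nat_eq_factorial]
  norm_num

end Pool.Agent.W96.FM
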