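import Pool.Agent.W96.FM.Main

/-!
The limit `m → ∞`: the functional Mahler inequality.
-/

set_option autoImplicit false

open MeasureTheory Set Filter Topology
open scoped ENNReal BigOperators

namespace Pool.Agent.W96.FM

variable {n : ℕ} {f : (Fin n → ℝ) → ℝ}

/-- fibre volumes of the polar body -/
noncomputable def VV (f : (Fin n → ℝ) → ℝ) (m : ℕ) (y : Fin n → ℝ) : ℝ≥0∞ :=
  volume {t : Fin m → ℝ | (y, t) ∈ pol2 (KK f m)}

lemma VV_meas (m : ℕ) : Measurable (VV f m) :=
  measurable_measure_prodMk_left (isClosed_pol2 (KK f m)).measurableSet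

lemma vol_pol (m : ℕ) : volume (pol2 (KK f m)) = ∫⁻ y, VV f m y := by
  rw [Measure.volume_eq_prod, Measure.prod_apply (isClosed_pol2 _).measurableSet]
  rfl

/-- normalised fibre volumes -/
noncomputable def FF (f : (Fin n → ℝ) → ℝ) (m : ℕ) (y : Fin n → ℝ) : ℝ≥0∞ :=
  ENNReal.ofReal (m.factorial / 2 ^ m) * VV f m ((m : ℝ)⁻¹ • y)

lemma FF_meas (m : ℕ) : Measurable (FF f m) :=
  ((VV_meas m).comp (measurable_const_smul _)).const_mul _

lemma lint_FF (m : ℕ) (hm : 1 ≤ m) :
    ∫⁻ y, FF f m y = ENNReal.ofReal (m.factorial / 2 ^ m * m ^ n) * volume (pol2 (KK f m)) := by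
  have hm0 : (0 : ℝ) < m := by exact_mod_cast hm
  have hinv : (m : ℝ)⁻¹ ≠ 0 := inv_ne_zero hm0.ne'
  unfold FF
  rw [lintegral_const_mul' _ _ ENNReal.ofReal_ne_top]
  have h1 : ∫⁻ y, VV f m ((m : ℝ)⁻¹ • y) =
      ∫⁻ y, VV f m y ∂(Measure.map (fun y : Fin n → ℝ => (m : ℝ)⁻¹ • y) volume) := by
    rw [lintegral_map (VV_meas m) (measurable_const_smul _)]
  rw [h1, Measure.map_addHaar_smul volume hinv, lintegral_smul_measure, vol_pol,
    Module.finrank_fin_fun, smul_eq_mul, ← mul_assoc, ← ENNReal.ofReal_mul (by positivity)]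
  congr 2
  rw [inv_pow, inv_inv, abs_of_nonneg (by positivity)]

/-- pointwise bound of the normalised fibre volumes -/
lemma FF_le (m : ℕ) (hm : 1 ≤ m) (y x : Fin n → ℝ) (hx : ∀ i, |x i| ≤ m) (hfx : 0 < f x)
    (hr : 0 < 1 + Real.log (f x) / m) :
    FF f m y ≤ ENNReal.ofReal ((1 + -(∑ i, x i * y i) / m) / (1 + Real.log (f x) / m)) ^ m := by
  have h := fib_le (f := f) m hm ((m : ℝ)⁻¹ • y) x hx hfx hr
  have e1 : ∑ i, x i * ((m : ℝ)⁻¹ • y) i = (∑ i, x i * y i) / m := by
    rw [Finset.sum_div]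
    refine Finset.sum_congr rfl fun i _ => ?_
    rw [Pi.smul_apply, smul_eq_mul]; ring
  rw [e1] at h
  unfold FF VV
  calc _ ≤ ENNReal.ofReal (m.factorial / 2 ^ m) *
      (ENNReal.ofReal ((1 - (∑ i, x i * y i) / m) / (1 + Real.log (f x) / m)) ^ m *
        ENNReal.ofReal (2 ^ m / m.factorial)) := mul_le_mul_right h _
    _ = ENNReal.ofReal (m.factorial / 2 ^ m) * ENNReal.ofReal (2 ^ m / m.factorial) *
      ENNReal.ofReal ((1 - (∑ i, x i * y i) / m) / (1 + Real.log (f x) / m)) ^ m := by ring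
    _ = _ := by
      rw [← ENNReal.ofReal_mul (by positivity)]
      have : (m.factorial : ℝ) / 2 ^ m * (2 ^ m / m.factorial) = 1 := by
        have : (m.factorial : ℝ) ≠ 0 := by exact_mod_cast m.factorial_ne_zero
        field_simp
      rw [this, ENNReal.ofReal_one, one_mul]
      congr 3
      ring

lemma log_div_tendsto (c : ℝ) : Tendsto (fun m : ℕ => c / (m : ℝ)) atTop (𝓝 0) :=
  tendsto_const_div_atTop_nhds_zero_nat c

/-- pointwise limsup -/
lemma limsup_FF (y : Fin n → ℝ) :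
    limsup (fun m => FF f m y) atTop ≤ polarFun f y := by
  refine le_iInf fun x => ?_
  by_cases hfx : 0 < f x
  swap
  · rw [ENNReal.ofReal_eq_zero.2 (not_lt.1 hfx), ENNReal.div_zero]
    · exact le_top
    · simp [Real.exp_pos]
  set s := ∑ i, x i * y i with hs
  have hlim : Tendsto (fun m : ℕ => ENNReal.ofReal
      ((1 + -s / m) ^ m / (1 + Real.log (f x) / m) ^ m)) atTop
      (𝓝 (ENNReal.ofReal (Real.exp (-s)) / ENNReal.ofReal (f x))) := by
    rw [← ENNReal.ofReal_div_of_pos hfx]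
    refine (ENNReal.continuous_ofReal.tendsto _).comp ?_
    have h1 := Real.tendsto_one_add_div_pow_exp (-s)
    have h2 := Real.tendsto_one_add_div_pow_exp (Real.log (f x))
    rw [Real.exp_log hfx] at h2
    exact h1.div h2 hfx.ne'
  rw [← hlim.limsup_eq]
  refine limsup_le_limsup ?_
  have e1 : ∀ᶠ m : ℕ in atTop, -(1/2) < Real.log (f x) / (m : ℝ) :=
    (log_div_tendsto _).eventually (lt_mem_nhds (by norm_num))
  have e2 : ∀ᶠ m : ℕ in atTop, -(1/2) < -s / (m : ℝ) :=
    (log_div_tendsto _).eventually (lt_mem_nhds (by norm_num))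
  have e3 : ∀ᶠ m : ℕ in atTop, ∀ i, |x i| ≤ (m : ℝ) := by
    filter_upwards [tendsto_natCast_atTop_atTop.eventually (eventually_ge_atTop ‖x‖)] with m hm i
    exact (norm_le_pi_norm x i).trans hm
  filter_upwards [e1, e2, e3, eventually_ge_atTop 1] with m h1 h2 h3 h4
  have h5 : 0 < 1 + Real.log (f x) / m := by linarith
  have h6 : 0 < 1 + -s / m := by linarith
  refine (FF_le m h4 y x h3 hfx h5).trans (le_of_eq ?_)
  rw [← ENNReal.ofReal_pow (by positivity), div_pow]

/-- dominating function -/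
lemma dom_FF {c ρ : ℝ} (hc : 0 < c) (hρ : 0 < ρ) (hcf : ∀ x : Fin n → ℝ, ‖x‖ ≤ ρ → c ≤ f x)
    (m : ℕ) (hm : 1 ≤ m) (hmρ : ρ ≤ m) (hm2 : 0 < 1 + Real.log c / m)
    (hm3 : 1 / (1 + Real.log c / m) ^ m ≤ 2 / c) (y : Fin n → ℝ) :
    FF f m y ≤ ENNReal.ofReal (2 / c * ∏ i, Real.exp (-ρ * |y i|)) := by
  have hm0 : (0 : ℝ) < m := by exact_mod_cast hm
  set x : Fin n → ℝ := fun i => ρ * SignType.sign (y i) with hx
  have habs : ∀ i, |x i| ≤ ρ := by
    intro i
    rw [hx]
    simp only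
    rw [abs_mul, abs_of_pos hρ]
    rcases lt_trichotomy (y i) 0 with h | h | h
    · rw [sign_neg h]; simp
    · rw [h]; simp [hρ.le]
    · rw [sign_pos h]; simp
  have hxn : ‖x‖ ≤ ρ := (pi_norm_le_iff_of_nonneg hρ.le).2 fun i => by
    rw [Real.norm_eq_abs]; exact habs i
  have hfx := hcf x hxn
  have hfx0 := hc.trans_le hfx
  have hlog : Real.log c / m ≤ Real.log (f x) / m := by
    have := Real.log_le_log hc hfx
    gcongr
  have hr : 0 < 1 + Real.log (f x) / m := by linarith
  have hsum : ∑ i, x i * y i = ρ * ∑ i, |y i| := by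
    rw [Finset.mul_sum]
    refine Finset.sum_congr rfl fun i _ => ?_
    rw [hx]
    simp only
    rw [mul_assoc, sign_mul_self]
  refine (FF_le m hm y x (fun i => (habs i).trans hmρ) hfx0 hr).trans ?_
  rw [hsum]
  set S := ρ * ∑ i, |y i| with hS
  have hprod : ∏ i, Real.exp (-ρ * |y i|) = Real.exp (-S) := by
    rw [← Real.exp_sum, hS, Finset.mul_sum, ← Finset.sum_neg_distrib]
    congr 1
    refine Finset.sum_congr rfl fun i _ => by ring
  rw [hprod]
  have h1 : (1 + -S / m) / (1 + Real.log (f x) / m) ≤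
      Real.exp (-S / m) / (1 + Real.log c / m) := by
    have h2 : 1 + -S / m ≤ Real.exp (-S / m) := by
      rw [add_comm]; exact Real.add_one_le_exp _
    calc (1 + -S / m) / (1 + Real.log (f x) / m) ≤ Real.exp (-S / m) / (1 + Real.log (f x) / m) := by
          gcongr
      _ ≤ _ := by gcongr
  calc ENNReal.ofReal ((1 + -S / m) / (1 + Real.log (f x) / m)) ^ m
      ≤ ENNReal.ofReal (Real.exp (-S / m) / (1 + Real.log c / m)) ^ m := by
        gcongr
    _ = ENNReal.ofReal ((Real.exp (-S / m) / (1 + Real.log c / m)) ^ m) := by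
        rw [ENNReal.ofReal_pow (by positivity)]
    _ ≤ _ := by
        refine ENNReal.ofReal_le_ofReal ?_
        rw [div_pow, ← Real.exp_nat_mul, mul_div_cancel₀ _ hm0.ne', div_eq_mul_one_div, mul_comm]
        exact mul_le_mul_of_nonneg_right hm3 (Real.exp_pos _).le

lemma integrable_exp_abs {ρ : ℝ} (hρ : 0 < ρ) : Integrable (fun x : ℝ => Real.exp (-ρ * |x|)) := by
  have h1 : IntegrableOn (fun x : ℝ => Real.exp (-ρ * |x|)) (Ioi 0) := by
    have := exp_neg_integrableOn_Ioi 0 hρ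
    refine (integrableOn_congr_fun (fun x hx => ?_) measurableSet_Ioi).1 this
    rw [abs_of_pos hx]
  have h2 : IntegrableOn (fun x : ℝ => Real.exp (-ρ * |x|)) (Iic 0) := by
    have h5 : IntegrableOn (fun x : ℝ => Real.exp (-ρ * |x|)) (Ici 0) :=
      (integrableOn_Ici_iff_integrableOn_Ioi).2 h1
    have h6 := (Measure.measurePreserving_neg (volume : Measure ℝ)).integrableOn_comp_preimage
      (Homeomorph.neg ℝ).measurableEmbedding (f := fun x : ℝ => Real.exp (-ρ * |x|)) (s := Ici 0)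
    have h7 := h6.2 h5
    have e : (Neg.neg : ℝ → ℝ) ⁻¹' Ici 0 = Iic 0 := by ext x; simp
    rw [e] at h7
    refine (integrableOn_congr_fun (fun x _ => ?_) measurableSet_Iic).1 h7
    simp
  have h8 : IntegrableOn (fun x : ℝ => Real.exp (-ρ * |x|)) (Iic 0 ∪ Ioi 0) := h2.union h1
  rw [Iic_union_Ioi] at h8
  exact integrableOn_univ.1 h8

lemma dom_fin {c ρ : ℝ} (hρ : 0 < ρ) :
    ∫⁻ y : Fin n → ℝ, ENNReal.ofReal (2 / c * ∏ i, Real.exp (-ρ * |y i|)) ≠ ∞ := by
  have h1 : Integrable (fun y : Fin n → ℝ => ∏ i, Real.exp (-ρ * |y i|)) :=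
    Integrable.fintype_prod (f := fun (_ : Fin n) (t : ℝ) => Real.exp (-ρ * |t|))
      (fun _ => integrable_exp_abs hρ)
  exact (h1.const_mul (2 / c)).lintegral_lt_top.ne

/-- the normalised case -/
theorem fm_norm (hM : MahlerAll) (h : ELC f) (h0 : f 0 = 1) {c ρ : ℝ} (hc : 0 < c) (hρ : 0 < ρ)
    (hcf : ∀ x : Fin n → ℝ, ‖x‖ ≤ ρ → c ≤ f x) (hf : (∫⁻ x, ENNReal.ofReal (f x)) ≠ ∞) :
    (4 : ℝ≥0∞) ^ n ≤ (∫⁻ x, ENNReal.ofReal (f x)) * ∫⁻ y, polarFun f y := by
  have hev : ∀ᶠ x in 𝓝 (0 : Fin n → ℝ), c ≤ f x := by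
    filter_upwards [Metric.closedBall_mem_nhds (0 : Fin n → ℝ) hρ] with x hx
    exact hcf x (mem_closedBall_zero_iff.1 hx)
  have e1 : ∀ᶠ m : ℕ in atTop, -(1/2) < Real.log c / (m : ℝ) :=
    (log_div_tendsto _).eventually (lt_mem_nhds (by norm_num))
  have e2 : ∀ᶠ m : ℕ in atTop, ρ ≤ (m : ℝ) :=
    tendsto_natCast_atTop_atTop.eventually (eventually_ge_atTop ρ)
  have e3 : ∀ᶠ m : ℕ in atTop, 1 / (1 + Real.log c / m) ^ m ≤ 2 / c := by
    have h2 := Real.tendsto_one_add_div_pow_exp (Real.log c)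
    rw [Real.exp_log hc] at h2
    have h3 := (tendsto_const_nhds (x := (1 : ℝ))).div h2 hc.ne'
    refine h3.eventually (ge_mem_nhds ?_)
    gcongr
    norm_num
  obtain ⟨m0, hm0⟩ := (e1.and (e2.and (e3.and (eventually_ge_atTop 1)))).exists_forall_of_atTop
  -- the inequality for each large `m`
  have key : ∀ m, m0 ≤ m → ENNReal.ofReal ((4 : ℝ) ^ n * (m.factorial * m ^ n / (n + m).factorial)) ≤
      (∫⁻ x, ENNReal.ofReal (f x)) * ∫⁻ y, FF f m y := by
    intro m hm
    obtain ⟨h1, h2, h3, h4⟩ := hm0 m hm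
    have hmah := prodM hM (KK_convex h m) (KK_bdd h h0 m) (KK_int hc hev m h4 h1.le) (KK_symm h m)
    have hvol := KK_vol h m h4
    rw [lint_FF m h4]
    have hstep : ENNReal.ofReal ((4 : ℝ) ^ (n + m) / (n + m).factorial) ≤
        ENNReal.ofReal (2 ^ m) * (∫⁻ x, ENNReal.ofReal (f x)) * volume (pol2 (KK f m)) :=
      hmah.trans (mul_le_mul_left hvol _)
    calc ENNReal.ofReal ((4 : ℝ) ^ n * (m.factorial * m ^ n / (n + m).factorial))
        = ENNReal.ofReal (m.factorial / 2 ^ m * m ^ n / 2 ^ m) *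
          ENNReal.ofReal ((4 : ℝ) ^ (n + m) / (n + m).factorial) := by
          rw [← ENNReal.ofReal_mul (by positivity)]
          congr 1
          have : (4 : ℝ) ^ (n + m) = 4 ^ n * (2 ^ m * 2 ^ m) := by
            rw [pow_add, ← mul_pow]; norm_num
          rw [this]
          field_simp
      _ ≤ ENNReal.ofReal (m.factorial / 2 ^ m * m ^ n / 2 ^ m) *
          (ENNReal.ofReal (2 ^ m) * (∫⁻ x, ENNReal.ofReal (f x)) * volume (pol2 (KK f m))) :=
          mul_le_mul_right hstep _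
      _ = (ENNReal.ofReal (m.factorial / 2 ^ m * m ^ n / 2 ^ m) * ENNReal.ofReal (2 ^ m)) *
          (∫⁻ x, ENNReal.ofReal (f x)) * volume (pol2 (KK f m)) := by ring
      _ = _ := by
          rw [← ENNReal.ofReal_mul (by positivity), div_mul_cancel₀ _ (by positivity)]
          ring
  -- left side
  have hleft : Tendsto (fun m : ℕ => ENNReal.ofReal
      ((4 : ℝ) ^ n * (m.factorial * m ^ n / (n + m).factorial))) atTop (𝓝 ((4 : ℝ≥0∞) ^ n)) := by
    have h4 : (4 : ℝ≥0∞) ^ n = ENNReal.ofReal ((4 : ℝ) ^ n * 1) := by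
      rw [mul_one, ENNReal.ofReal_pow (by norm_num)]
      norm_num
    rw [h4]
    refine (ENNReal.continuous_ofReal.tendsto _).comp (tendsto_const_nhds.mul ?_)
    have hlow : ∀ m : ℕ, 1 ≤ m → ((m : ℝ) / (m + n)) ^ n ≤ m.factorial * m ^ n / (n + m).factorial := by
      intro m hm
      have hm' : (0 : ℝ) < m := by exact_mod_cast hm
      have h5 : ((n + m).factorial : ℝ) ≤ m.factorial * (m + n) ^ n := by
        have := Nat.ascFactorial_le_pow_add m n
        rw [← Nat.mul_le_mul_left_iff (Nat.factorial_pos m), Nat.factorial_mul_ascFactorial] at this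
        rw [add_comm n m]
        exact_mod_cast this
      rw [div_pow, div_le_div_iff₀ (by positivity) (by positivity)]
      nlinarith [pow_pos hm' n]
    have hup : ∀ m : ℕ, 1 ≤ m → (m.factorial * m ^ n / (n + m).factorial : ℝ) ≤ 1 := by
      intro m hm
      rw [div_le_one (by positivity)]
      have := Nat.factorial_mul_pow_le_factorial (m := m) (n := n)
      have h6 : m.factorial * m ^ n ≤ (n + m).factorial := by
        rw [add_comm n m]
        exact (Nat.mul_le_mul_left _ (Nat.pow_le_pow_left (Nat.le_succ m) n)).trans this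
      exact_mod_cast h6
    have hl : Tendsto (fun m : ℕ => ((m : ℝ) / (m + n)) ^ n) atTop (𝓝 1) := by
      have : Tendsto (fun m : ℕ => (m : ℝ) / (m + n)) atTop (𝓝 1) := by
        have := tendsto_natCast_div_add_atTop (𝕜 := ℝ) (n : ℝ)
        exact this
      simpa using this.pow n
    refine tendsto_of_tendsto_of_tendsto_of_le_of_le' hl tendsto_const_nhds ?_ ?_
    · filter_upwards [eventually_ge_atTop 1] with m hm using hlow m hm
    · filter_upwards [eventually_ge_atTop 1] with m hm using hup m hm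
  -- the integral of the limsup
  have hint : limsup (fun m => ∫⁻ y, FF f (m + m0) y) atTop ≤ ∫⁻ y, polarFun f y := by
    refine (limsup_lintegral_le
      (fun y : Fin n → ℝ => ENNReal.ofReal (2 / c * ∏ i, Real.exp (-ρ * |y i|)))
      (fun m => FF_meas (m + m0)) (fun m => ?_) (dom_fin hρ)).trans ?_
    · obtain ⟨h1, h2, h3, h4⟩ := hm0 (m + m0) (by omega)
      exact Eventually.of_forall fun y => dom_FF hc hρ hcf (m + m0) h4 h2 (by linarith) h3 y
    · refine lintegral_mono fun y => ?_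
      have h5 : limsup (fun m => FF f (m + m0) y) atTop = limsup (fun m => FF f m y) atTop :=
        Filter.limsup_nat_add (fun m => FF f m y) m0
      rw [h5]
      exact limsup_FF y
  by_cases hI : (∫⁻ y, polarFun f y) = ∞
  · rw [hI, ENNReal.mul_top]
    · exact le_top
    · -- `∫ f > 0`
      have h7 : ENNReal.ofReal c * volume (Metric.closedBall (0 : Fin n → ℝ) ρ) ≤
          ∫⁻ x, ENNReal.ofReal (f x) := by
        rw [← setLIntegral_const]
        refine (setLIntegral_mono' measurableSet_closedBall fun x hx => ?_).trans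
          (setLIntegral_le_lintegral _ _)
        exact ENNReal.ofReal_le_ofReal (hcf x (mem_closedBall_zero_iff.1 hx))
      intro h8
      rw [h8] at h7
      have h9 : 0 < ENNReal.ofReal c * volume (Metric.closedBall (0 : Fin n → ℝ) ρ) :=
        ENNReal.mul_pos (by simpa using hc) (Metric.measure_closedBall_pos volume _ hρ).ne'
      exact absurd h7 (not_le.2 h9)
  have hleft' := hleft.comp (tendsto_add_atTop_nat m0)
  rw [← hleft'.limsup_eq]
  calc limsup ((fun m : ℕ => ENNReal.ofReal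
        ((4 : ℝ) ^ n * (m.factorial * m ^ n / (n + m).factorial))) ∘ fun a => a + m0) atTop
      ≤ limsup (fun m => (∫⁻ x, ENNReal.ofReal (f x)) * ∫⁻ y, FF f (m + m0) y) atTop := by
        refine limsup_le_limsup (Eventually.of_forall fun m => ?_)
        exact key (m + m0) (by omega)
    _ ≤ _ := by
        rw [ENNReal.limsup_const_mul_of_ne_top hf]
        exact mul_le_mul_right hint _

/-- superlevel sets are convex -/
lemma ELC.convex (h : ELC f) {t : ℝ} (ht : 0 ≤ t) : Convex ℝ {x | t < f x} := by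
  intro x hx y hy a b ha hb hab
  rcases ha.eq_or_lt with rfl | ha
  · have : b = 1 := by linarith
    subst this
    simpa using hy
  rcases hb.eq_or_lt with rfl | hb
  · have : a = 1 := by linarith
    subst this
    simpa using hx
  have hx' : t < f x := hx
  have hy' : t < f y := hy
  refine lt_of_lt_of_le ?_ (h.logc x y a b ha hb hab)
  calc t = t ^ a * t ^ b := by
        rw [← Real.rpow_add_of_nonneg ht ha.le hb.le, hab, Real.rpow_one]
    _ < f x ^ a * f y ^ b :=
        mul_lt_mul'' (Real.rpow_lt_rpow ht hx' ha) (Real.rpow_lt_rpow ht hy' hb)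
          (Real.rpow_nonneg ht _) (Real.rpow_nonneg ht _)

/-- positivity near the origin -/
lemma ELC.pos_near (h : ELC f) (hf : (∫⁻ x, ENNReal.ofReal (f x)) ≠ 0) :
    ∃ c ρ : ℝ, 0 < c ∧ 0 < ρ ∧ ∀ x : Fin n → ℝ, ‖x‖ ≤ ρ → c ≤ f x := by
  obtain ⟨k, hk⟩ : ∃ k : ℕ, volume {x | 1 / ((k : ℝ) + 1) < f x} ≠ 0 := by
    by_contra hcon
    push Not at hcon
    refine hf ?_
    rw [lintegral_congr_ae (g := fun _ => 0)]
    · simp
    have h1 : ∀ᵐ x ∂(volume : Measure (Fin n → ℝ)), ∀ k : ℕ, ¬ (1 / ((k : ℝ) + 1) < f x) := by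
      rw [ae_all_iff]
      intro k
      rw [ae_iff]
      simpa using hcon k
    filter_upwards [h1] with x hx
    refine ENNReal.ofReal_eq_zero.2 ?_
    by_contra h0
    obtain ⟨k, hk⟩ := exists_nat_one_div_lt (not_le.1 h0)
    exact hx k hk
  set t : ℝ := 1 / ((k : ℝ) + 1) with ht
  have ht0 : 0 < t := by positivity
  set A := {x | t < f x} with hA
  have hc : Convex ℝ A := h.convex ht0.le
  have hi : (interior A).Nonempty := by
    by_contra hne
    rw [not_nonempty_iff_eq_empty] at hne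
    refine hk (le_antisymm ?_ zero_le)
    have h1 : A ⊆ frontier A := by
      intro x hx
      rw [frontier, hne, sdiff_empty]
      exact subset_closure hx
    exact (measure_mono h1).trans (hc.addHaar_frontier volume).le
  have hsymm : ∀ x ∈ interior A, -x ∈ interior A := by
    intro x hx
    have h1 : IsOpen ((fun z : Fin n → ℝ => -z) ⁻¹' interior A) :=
      isOpen_interior.preimage continuous_neg
    have h2 : (fun z : Fin n → ℝ => -z) ⁻¹' interior A ⊆ A := by
      intro z hz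
      have := interior_subset hz
      change t < f z
      have h3 : t < f (-z) := this
      rwa [h.even] at h3
    refine interior_maximal h2 h1 ?_
    simpa using hx
  obtain ⟨x, hx⟩ := hi
  have h0 : (0 : Fin n → ℝ) ∈ interior A := by
    have := hc.interior hx (hsymm x hx) (a := 1/2) (b := 1/2) (by norm_num) (by norm_num)
      (by norm_num)
    have e : (1/2 : ℝ) • x + (1/2 : ℝ) • (-x) = 0 := by rw [smul_neg]; abel
    rwa [e] at this
  obtain ⟨ρ, hρ, hb⟩ := Metric.nhds_basis_closedBall.mem_iff.1 (mem_interior_iff_mem_nhds.1 h0)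
  refine ⟨t, ρ, ht0, hρ, fun y hy => ?_⟩
  have : y ∈ A := hb (mem_closedBall_zero_iff.2 hy)
  exact le_of_lt this

/-- **the functional Mahler inequality** -/
theorem fm (hM : MahlerAll) (h : ELC f) (hf : (∫⁻ x, ENNReal.ofReal (f x)) ≠ ∞)
    (hf0 : (∫⁻ x, ENNReal.ofReal (f x)) ≠ 0) :
    (4 : ℝ≥0∞) ^ n ≤ (∫⁻ x, ENNReal.ofReal (f x)) * ∫⁻ y, polarFun f y := by
  obtain ⟨c, ρ, hc, hρ, hcf⟩ := h.pos_near hf0
  set M := f 0 with hM0
  have hMpos : 0 < M := hc.trans_le (hcf 0 (by simpa using hρ.le))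
  set g : (Fin n → ℝ) → ℝ := fun x => M⁻¹ * f x with hg
  have hgE : ELC g := by
    refine ⟨fun x => by have := h.nonneg x; positivity, fun x y a b ha hb hab => ?_, fun x => ?_⟩
    · rw [hg]
      simp only
      rw [Real.mul_rpow (by positivity) (h.nonneg x), Real.mul_rpow (by positivity) (h.nonneg y)]
      have e : (M⁻¹) ^ a * (M⁻¹) ^ b = M⁻¹ := by
        rw [← Real.rpow_add (by positivity), hab, Real.rpow_one]
      calc M⁻¹ ^ a * f x ^ a * (M⁻¹ ^ b * f y ^ b) = (M⁻¹ ^ a * M⁻¹ ^ b) * (f x ^ a * f y ^ b) := by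
            ring
        _ = M⁻¹ * (f x ^ a * f y ^ b) := by rw [e]
        _ ≤ _ := mul_le_mul_of_nonneg_left (h.logc x y a b ha hb hab) (by positivity)
    · rw [hg]; simp only; rw [h.even]
  have hg0 : g 0 = 1 := by rw [hg]; simp only; rw [← hM0]; exact inv_mul_cancel₀ hMpos.ne'
  have hcg : ∀ x : Fin n → ℝ, ‖x‖ ≤ ρ → M⁻¹ * c ≤ g x := fun x hx =>
    mul_le_mul_of_nonneg_left (hcf x hx) (by positivity)
  have hint : ∫⁻ x, ENNReal.ofReal (g x) = ENNReal.ofReal M⁻¹ * ∫⁻ x, ENNReal.ofReal (f x) := by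
    rw [← lintegral_const_mul' _ _ ENNReal.ofReal_ne_top]
    refine lintegral_congr fun x => ?_
    rw [hg]; simp only
    rw [ENNReal.ofReal_mul (by positivity)]
  have hpol : ∀ y, polarFun g y = ENNReal.ofReal M * polarFun f y := by
    intro y
    unfold polarFun
    rw [ENNReal.mul_iInf_of_ne (by simpa using hMpos) ENNReal.ofReal_ne_top]
    refine iInf_congr fun x => ?_
    rw [hg]; simp only
    rw [ENNReal.ofReal_mul (by positivity), ENNReal.ofReal_inv_of_pos hMpos, ENNReal.div_eq_inv_mul,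
      ENNReal.div_eq_inv_mul, ENNReal.mul_inv (Or.inl (by simp)) (Or.inl (by simpa using hMpos)),
      inv_inv]
    ring
  have hfin : (∫⁻ x, ENNReal.ofReal (g x)) ≠ ∞ := by
    rw [hint]; exact ENNReal.mul_ne_top ENNReal.ofReal_ne_top hf
  have hres := fm_norm hM hgE hg0 (mul_pos (inv_pos.2 hMpos) hc) hρ hcg hfin
  rw [hint] at hres
  simp only [hpol] at hres
  rw [lintegral_const_mul' _ _ ENNReal.ofReal_ne_top] at hres
  refine hres.trans (le_of_eq ?_)
  calc _ = (ENNReal.ofReal M⁻¹ * ENNReal.ofReal M) *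
        ((∫⁻ x, ENNReal.ofReal (f x)) * ∫⁻ y, polarFun f y) := by ring
    _ = _ := by
        rw [← ENNReal.ofReal_mul (by positivity), inv_mul_cancel₀ hMpos.ne', ENNReal.ofReal_one,
          one_mul]

end Pool.Agent.W96.FM
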