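import Pool.Agent.W96.FM.Prod

/-!
From Mahler's inequality for symmetric convex bodies in all dimensions to the functional Mahler
inequality for even log-concave functions.
-/

set_option autoImplicit false

open MeasureTheory Set Filter Topology
open scoped ENNReal BigOperators

namespace Pool.Agent.W96.FM

variable {n : ℕ}

/-- even log-concave functions -/
structure ELC (f : (Fin n → ℝ) → ℝ) : Prop where
  nonneg : ∀ x, 0 ≤ f x
  logc : ∀ (x y : Fin n → ℝ) (a b : ℝ), 0 < a → 0 < b → a + b = 1 →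
    f x ^ a * f y ^ b ≤ f (a • x + b • y)
  even : ∀ x, f (-x) = f x

/-- the polar function `f°(y) = inf_x exp(-⟨x,y⟩)/f(x)` -/
noncomputable def polarFun (f : (Fin n → ℝ) → ℝ) (y : Fin n → ℝ) : ℝ≥0∞ :=
  ⨅ x : Fin n → ℝ, ENNReal.ofReal (Real.exp (-∑ i, x i * y i)) / ENNReal.ofReal (f x)

variable {f : (Fin n → ℝ) → ℝ}

lemma ELC.le_zero (h : ELC f) (x : Fin n → ℝ) : f x ≤ f 0 := by
  have h1 := h.logc x (-x) (1/2) (1/2) (by norm_num) (by norm_num) (by norm_num)
  rw [h.even, ← Real.rpow_add_of_nonneg (h.nonneg x) (by norm_num) (by norm_num)] at h1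
  have h2 : (1/2 : ℝ) • x + (1/2 : ℝ) • (-x) = 0 := by
    rw [smul_neg]; abel
  rw [h2] at h1
  norm_num at h1
  exact h1

/-- the body in dimension `n + m` -/
def KK (f : (Fin n → ℝ) → ℝ) (m : ℕ) : Set ((Fin n → ℝ) × (Fin m → ℝ)) :=
  {w | (∀ i, |w.1 i| ≤ m) ∧ 0 < f w.1 ∧ ∀ j, |w.2 j| ≤ 1 + Real.log (f w.1) / m}

lemma KK_convex (h : ELC f) (m : ℕ) : Convex ℝ (KK f m) := by
  intro w hw w' hw' a b ha hb hab
  rcases ha.eq_or_lt with rfl | ha
  · have : b = 1 := by linarith
    subst this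
    simpa using hw'
  rcases hb.eq_or_lt with rfl | hb
  · have : a = 1 := by linarith
    subst this
    simpa using hw
  have hpos : 0 < f w.1 ^ a * f w'.1 ^ b :=
    mul_pos (Real.rpow_pos_of_pos hw.2.1 _) (Real.rpow_pos_of_pos hw'.2.1 _)
  have h1 := h.logc w.1 w'.1 a b ha hb hab
  have h2 : 0 < f (a • w.1 + b • w'.1) := hpos.trans_le h1
  have h3 : a * Real.log (f w.1) + b * Real.log (f w'.1) ≤ Real.log (f (a • w.1 + b • w'.1)) := by
    have := Real.log_le_log hpos h1
    rwa [Real.log_mul (Real.rpow_pos_of_pos hw.2.1 _).ne' (Real.rpow_pos_of_pos hw'.2.1 _).ne',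
      Real.log_rpow hw.2.1, Real.log_rpow hw'.2.1] at this
  refine ⟨fun i => ?_, h2, fun j => ?_⟩
  · have e : (a • w + b • w').1 i = a * w.1 i + b * w'.1 i := rfl
    rw [e]
    calc |a * w.1 i + b * w'.1 i| ≤ |a * w.1 i| + |b * w'.1 i| := abs_add_le _ _
      _ = a * |w.1 i| + b * |w'.1 i| := by rw [abs_mul, abs_mul, abs_of_pos ha, abs_of_pos hb]
      _ ≤ a * m + b * m := by
        have := hw.1 i
        have := hw'.1 i
        gcongr
      _ = m := by rw [← add_mul, hab, one_mul]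
  · have e : (a • w + b • w').2 j = a * w.2 j + b * w'.2 j := rfl
    have e1 : (a • w + b • w').1 = a • w.1 + b • w'.1 := rfl
    rw [e, e1]
    calc |a * w.2 j + b * w'.2 j| ≤ |a * w.2 j| + |b * w'.2 j| := abs_add_le _ _
      _ = a * |w.2 j| + b * |w'.2 j| := by rw [abs_mul, abs_mul, abs_of_pos ha, abs_of_pos hb]
      _ ≤ a * (1 + Real.log (f w.1) / m) + b * (1 + Real.log (f w'.1) / m) := by
        have := hw.2.2 j
        have := hw'.2.2 j
        gcongr
      _ = 1 + (a * Real.log (f w.1) + b * Real.log (f w'.1)) / m := by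
        rw [add_div, mul_add, mul_add, mul_one, mul_one]
        have : b = 1 - a := by linarith
        rw [this]; ring
      _ ≤ _ := by gcongr

lemma KK_symm (h : ELC f) (m : ℕ) : ∀ z ∈ KK f m, -z ∈ KK f m := by
  rintro z ⟨h1, h2, h3⟩
  refine ⟨fun i => ?_, ?_, fun j => ?_⟩
  · simpa using h1 i
  · rw [show (-z).1 = -z.1 from rfl, h.even]; exact h2
  · rw [show (-z).1 = -z.1 from rfl, h.even]
    simpa using h3 j

lemma KK_bdd (h : ELC f) (h0 : f 0 = 1) (m : ℕ) : Bornology.IsBounded (KK f m) := by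
  refine (Metric.isBounded_closedBall (x := (0 : (Fin n → ℝ) × (Fin m → ℝ)))
    (r := max (m : ℝ) 1)).subset ?_
  rintro z ⟨h1, h2, h3⟩
  rw [mem_closedBall_zero_iff, Prod.norm_def, max_le_iff]
  have hm : (0 : ℝ) ≤ m := Nat.cast_nonneg m
  constructor
  · refine (pi_norm_le_iff_of_nonneg (by positivity)).2 fun i => ?_
    rw [Real.norm_eq_abs]
    exact (h1 i).trans (le_max_left _ _)
  · refine (pi_norm_le_iff_of_nonneg (by positivity)).2 fun j => ?_
    rw [Real.norm_eq_abs]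
    refine ((h3 j).trans ?_).trans (le_max_right _ _)
    have : Real.log (f z.1) ≤ 0 := Real.log_nonpos h2.le (by rw [← h0]; exact h.le_zero _)
    have := div_nonpos_of_nonpos_of_nonneg this hm
    linarith

lemma KK_int {c : ℝ} (hc : 0 < c) (hev : ∀ᶠ x in 𝓝 (0 : Fin n → ℝ), c ≤ f x) (m : ℕ)
    (hm : 1 ≤ m) (hm2 : -(1/2) ≤ Real.log c / m) : (interior (KK f m)).Nonempty := by
  refine ⟨(0, 0), mem_interior_iff_mem_nhds.2 ?_⟩
  have hmr : (1 : ℝ) ≤ m := by exact_mod_cast hm
  have e1 : ∀ᶠ w in 𝓝 ((0, 0) : (Fin n → ℝ) × (Fin m → ℝ)), c ≤ f w.1 := by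
    exact (continuous_fst.tendsto ((0, 0) : (Fin n → ℝ) × (Fin m → ℝ))).eventually hev
  have e2 : ∀ᶠ w in 𝓝 ((0, 0) : (Fin n → ℝ) × (Fin m → ℝ)), ‖w‖ < 1/2 := by
    have : Tendsto (fun w : (Fin n → ℝ) × (Fin m → ℝ) => ‖w‖) (𝓝 (0, 0)) (𝓝 ‖((0, 0) :
      (Fin n → ℝ) × (Fin m → ℝ))‖) := continuous_norm.tendsto _
    rw [show ‖((0, 0) : (Fin n → ℝ) × (Fin m → ℝ))‖ = 0 from norm_zero] at this
    exact this.eventually (gt_mem_nhds (by norm_num))
  filter_upwards [e1, e2] with w hw1 hw2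
  have h1 : ‖w.1‖ < 1/2 := (norm_fst_le w).trans_lt hw2
  have h2 : ‖w.2‖ < 1/2 := (norm_snd_le w).trans_lt hw2
  refine ⟨fun i => ?_, hc.trans_le hw1, fun j => ?_⟩
  · have := norm_le_pi_norm w.1 i
    rw [Real.norm_eq_abs] at this
    linarith
  · have := norm_le_pi_norm w.2 j
    rw [Real.norm_eq_abs] at this
    have h3 : Real.log c / m ≤ Real.log (f w.1) / m := by
      have := Real.log_le_log hc hw1
      gcongr
    linarith

/-- upper bound for the volume of the body -/
lemma KK_vol (h : ELC f) (m : ℕ) (hm : 1 ≤ m) :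
    volume (KK f m) ≤ ENNReal.ofReal (2 ^ m) * ∫⁻ x, ENNReal.ofReal (f x) := by
  have hm0 : (m : ℝ) ≠ 0 := by positivity
  have h1 : volume (KK f m) ≤ volume (interior (KK f m)) := by
    have hf := (KK_convex h m).addHaar_frontier volume
    exact (measure_mono subset_closure).trans (by
      rw [closure_eq_interior_union_frontier]
      refine (measure_union_le _ _).trans ?_
      rw [hf, add_zero])
  refine h1.trans ?_
  rw [Measure.volume_eq_prod, Measure.prod_apply isOpen_interior.measurableSet,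
    ← lintegral_const_mul' _ _ ENNReal.ofReal_ne_top]
  refine lintegral_mono fun x => ?_
  refine (measure_mono (t := {s : Fin m → ℝ | 0 < f x ∧ ∀ j, |s j| ≤ 1 + Real.log (f x) / m})
    fun s hs => ?_).trans ?_
  · have := interior_subset hs
    exact ⟨this.2.1, this.2.2⟩
  by_cases hx : 0 < f x
  · set r := 1 + Real.log (f x) / m with hr
    have hsub : {s : Fin m → ℝ | 0 < f x ∧ ∀ j, |s j| ≤ r} ⊆ Icc (fun _ => -r) (fun _ => r) := by
      rintro s ⟨-, hs⟩
      exact ⟨fun j => (abs_le.1 (hs j)).1, fun j => (abs_le.1 (hs j)).2⟩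
    refine (measure_mono hsub).trans ?_
    rw [Real.volume_Icc_pi]
    simp only [sub_neg_eq_add, Finset.prod_const, Finset.card_univ, Fintype.card_fin]
    rw [← ENNReal.ofReal_mul (by positivity)]
    rcases le_or_gt 0 r with h0 | h0
    · rw [← ENNReal.ofReal_pow (by linarith)]
      refine ENNReal.ofReal_le_ofReal ?_
      rw [← two_mul, mul_pow]
      refine mul_le_mul_of_nonneg_left ?_ (by positivity)
      have h2 : r ≤ Real.exp (Real.log (f x) / m) := by
        rw [hr, add_comm]; exact Real.add_one_le_exp _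
      calc r ^ m ≤ Real.exp (Real.log (f x) / m) ^ m := pow_le_pow_left₀ h0 h2 m
        _ = f x := by
          rw [← Real.exp_nat_mul, mul_div_cancel₀ _ hm0, Real.exp_log hx]
    · rw [ENNReal.ofReal_eq_zero.2 (by linarith : r + r ≤ 0), zero_pow (by omega)]
      exact zero_le
  · have : {s : Fin m → ℝ | 0 < f x ∧ ∀ j, |s j| ≤ 1 + Real.log (f x) / m} = ∅ := by
      ext s; simp [hx]
    rw [this]; simp

/-- fibre of the polar body -/
lemma fib_le (m : ℕ) (hm : 1 ≤ m) (y : Fin n → ℝ) (x : Fin n → ℝ)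
    (hx : ∀ i, |x i| ≤ m) (hfx : 0 < f x) (hr : 0 < 1 + Real.log (f x) / m) :
    volume {t : Fin m → ℝ | (y, t) ∈ pol2 (KK f m)} ≤
      ENNReal.ofReal ((1 - ∑ i, x i * y i) / (1 + Real.log (f x) / m)) ^ m *
        ENNReal.ofReal (2 ^ m / m.factorial) := by
  rw [← vol_l1 m hm]
  refine measure_mono fun t ht => ?_
  set r := 1 + Real.log (f x) / m with hr'
  have h1 := ht (x, fun j => r * SignType.sign (t j)) ⟨hx, hfx, fun j => ?_⟩
  · have h2 : ∑ j, (r * (SignType.sign (t j) : ℝ)) * t j = r * ∑ j, |t j| := by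
      rw [Finset.mul_sum]
      refine Finset.sum_congr rfl fun j _ => ?_
      rw [mul_assoc, sign_mul_self]
    simp only at h1
    rw [h2] at h1
    change ∑ j, |t j| ≤ _
    rw [le_div_iff₀ hr]
    linarith
  · change |r * (SignType.sign (t j) : ℝ)| ≤ r
    rw [abs_mul, abs_of_pos hr]
    rcases lt_trichotomy (t j) 0 with h | h | h
    · rw [sign_neg h]; simp
    · rw [h]; simp [hr.le]
    · rw [sign_pos h]; simp

end Pool.Agent.W96.FM
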